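import Pool.Agent.H31.DTC

namespace Pool.Agent.Results.MP_6a769b_co.Linear

open Finset Pool.Agent.H31.DTC Filter Asymptotics

open Classical in
noncomputable def cnt (S : Finset P) (p q : P) : ℕ := #{s ∈ S | 0 < det p q s}

def inv (S : Finset P) : Set ℕ :=
  {N | ∃ p ∈ S, ∃ q ∈ S, ∃ w ∈ S, p ≠ q ∧ q ≠ w ∧ p ≠ w ∧ det p q w = 0 ∧ N = cnt S p q}

theorem inv_sub {S T : Finset P} (h : Equi S T) : inv S ⊆ inv T := by
  obtain ⟨φ, h⟩ := h
  rintro N ⟨p, hp, q, hq, w, hw, a, b, d, e, rfl⟩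
  have ne : ∀ x y : S, x.1 ≠ y.1 → (φ x).1 ≠ (φ y).1 := fun x y n e =>
    n (congrArg Subtype.val (φ.injective (Subtype.ext e)))
  refine ⟨_, (φ ⟨p, hp⟩).2, _, (φ ⟨q, hq⟩).2, _, (φ ⟨w, hw⟩).2, ne _ _ a, ne _ _ b, ne _ _ d, ?_, ?_⟩
  · rw [← sign_eq_zero_iff, ← h, sign_eq_zero_iff]; exact e
  · unfold cnt
    refine card_bij (fun s hs => (φ ⟨s, (mem_filter.1 hs).1⟩).1) (fun s hs => ?_)
      (fun s _ t _ e => congrArg Subtype.val (φ.injective (Subtype.ext e))) (fun t ht => ?_)
    · refine mem_filter.2 ⟨(φ _).2, ?_⟩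
      rw [← sign_eq_one_iff, ← h, sign_eq_one_iff]; exact (mem_filter.1 hs).2
    · obtain ⟨s, hs⟩ := φ.surjective ⟨t, (mem_filter.1 ht).1⟩
      refine ⟨s.1, mem_filter.2 ⟨s.2, ?_⟩, by simp [hs]⟩
      have := h ⟨p, hp⟩ ⟨q, hq⟩ s
      rw [hs] at this
      rw [← sign_eq_one_iff]
      exact this.trans (sign_eq_one_iff.2 (mem_filter.1 ht).2)

theorem line {p q p' q' : P} (h : p ≠ q) (h' : p' ≠ q') (a : det p q p' = 0) (b : det p q q' = 0) :
    (∀ s, 0 < det p' q' s ↔ 0 < det p q s) ∨ (∀ s, 0 < det p' q' s ↔ det p q s < 0) := by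
  have nz : ∀ {x y : P}, x ≠ y → 0 < (y.1 - x.1) ^ 2 + (y.2 - x.2) ^ 2 := by
    intro x y n
    by_contra hc
    apply n
    ext <;> nlinarith [sq_nonneg (y.1 - x.1), sq_nonneg (y.2 - x.2)]
  have d := nz h
  set l := (q'.1 - p'.1) * (q.1 - p.1) + (q'.2 - p'.2) * (q.2 - p.2) with hl
  have E : ∀ s, ((q.1 - p.1) ^ 2 + (q.2 - p.2) ^ 2) * det p' q' s = l * det p q s := by
    intro s
    unfold det at a b ⊢
    linear_combination (((q.1 - p.1) * (s.1 - p.1) + (q.2 - p.2) * (s.2 - p.2)) -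
      ((q'.1 - p.1) * (q.1 - p.1) + (q'.2 - p.2) * (q.2 - p.2))) * a +
      (((q.1 - p.1) * (p'.1 - p.1) + (q.2 - p.2) * (p'.2 - p.2)) -
      ((q.1 - p.1) * (s.1 - p.1) + (q.2 - p.2) * (s.2 - p.2))) * b
  have l0 : l ≠ 0 := fun e => by
    have := E (p'.1 - (q'.2 - p'.2), p'.2 + (q'.1 - p'.1))
    rw [e, zero_mul, mul_eq_zero] at this
    have x := nz h'
    rcases this with y | y
    · linarith
    · simp only [det] at y; nlinarith
  rcases lt_or_gt_of_ne l0 with c | c
  · refine Or.inr fun s => ?_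
    rw [← mul_pos_iff_of_pos_left d, E]
    exact ⟨fun x => by by_contra y; nlinarith, fun x => mul_pos_of_neg_of_neg c x⟩
  · refine Or.inl fun s => ?_
    rw [← mul_pos_iff_of_pos_left d, E, mul_pos_iff_of_pos_left c]

def par (s : ℝ) : P := (s, s ^ 2)

variable {r m : ℕ}

noncomputable def lam (A : Finset (Fin m)) (j : Fin m) : ℝ :=
  if j ∈ A then 2 * j + 2 else 2 * j + 5 / 2

theorem lam_b (A : Finset (Fin m)) (j : Fin m) : 2 * j + 2 ≤ lam A j ∧ lam A j ≤ 2 * j + 5 / 2 := by
  unfold lam; split_ifs <;> constructor <;> linarith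

theorem lam_pos (A : Finset (Fin m)) (j : Fin m) : 0 < lam A j := by
  have := (lam_b A j).1
  have : (0 : ℝ) ≤ j := by positivity
  linarith

theorem lam_lt (A : Finset (Fin m)) {i j : Fin m} (h : i < j) : lam A i < lam A j := by
  have := (lam_b A i).2
  have := (lam_b A j).1
  have : (i : ℝ) + 1 ≤ j := by exact_mod_cast h
  linarith

noncomputable def tt (A : Finset (Fin m)) : Fin r ⊕ Fin m → ℝ
  | .inl i => i + 1
  | .inr j => -(lam A j)⁻¹

theorem tt_inj (A : Finset (Fin m)) : Function.Injective (tt (r := r) A) := by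
  rintro (i | i) (j | j) h <;> simp only [tt] at h
  · congr 1; ext; exact_mod_cast add_right_cancel h
  · have := inv_pos.2 (lam_pos A j)
    have : (0 : ℝ) ≤ i := by positivity
    linarith
  · have := inv_pos.2 (lam_pos A i)
    have : (0 : ℝ) ≤ j := by positivity
    linarith
  · congr 1
    have := inv_injective (neg_injective h)
    by_contra n
    rcases lt_or_gt_of_ne n with c | c <;> linarith [lam_lt A c]

noncomputable def pt (r : ℕ) (A : Finset (Fin m)) : Option (Fin r ⊕ Fin m) → P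
  | none => (0, 1)
  | some x => par (tt A x)

theorem pt_inj (A : Finset (Fin m)) : Function.Injective (pt r A) := by
  have : ∀ s, par s ≠ (0, 1) := fun s h => by
    simp only [par, Prod.mk.injEq] at h
    rw [h.1] at h; norm_num at h
  rintro (_ | x) (_ | y) h
  · rfl
  · exact absurd h.symm (this _)
  · exact absurd h (this _)
  · rw [tt_inj A (congrArg Prod.fst h)]

noncomputable def S (r : ℕ) (A : Finset (Fin m)) : Finset P := univ.image (pt r A)

theorem card_S (A : Finset (Fin m)) : #(S r A) = r + m + 1 := by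
  unfold S; rw [card_image_of_injective _ (pt_inj A)]; simp

theorem dtc_S (A : Finset (Fin m)) : dtc (S r A) ≤ 1 := by
  refine Nat.sInf_le ⟨{(0, 1)}, ?_, rfl, fun p hp => ?_⟩
  · simp only [singleton_subset_iff, S, mem_image]; exact ⟨none, mem_univ _, rfl⟩
  have M : ∀ q ∈ S r A \ {(0, 1)}, ∃ s, q = par s := by
    intro q hq
    obtain ⟨hq, h⟩ := mem_sdiff.1 hq
    obtain ⟨_ | x, -, rfl⟩ := mem_image.1 hq
    · exact absurd (mem_singleton.2 rfl) h
    · exact ⟨_, rfl⟩
  obtain ⟨s, rfl⟩ := M p hp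
  have H : convexHull ℝ ((S r A \ {(0, 1)} : Finset P) : Set P) ⊆ {q | q.1 ^ 2 ≤ q.2} := by
    refine convexHull_min (fun q hq => ?_) ?_
    · obtain ⟨t, rfl⟩ := M q hq; exact le_refl (t ^ 2)
    · intro x hx y hy a b ha hb hab
      simp only [Set.mem_ofPred_eq, Prod.fst_add, Prod.smul_fst, smul_eq_mul, Prod.snd_add,
        Prod.smul_snd] at hx hy ⊢
      have : b = 1 - a := by linarith
      subst this
      nlinarith [mul_nonneg (mul_nonneg ha hb) (sq_nonneg (x.1 - y.1)), mul_le_mul_of_nonneg_left hx ha,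
        mul_le_mul_of_nonneg_left hy hb]
  refine ⟨subset_convexHull _ _ hp, ?_⟩
  rintro x hx y hy ⟨a, b, ha, hb, hab, e⟩
  have h1 : x.1 ^ 2 ≤ x.2 := H hx
  have h2 : y.1 ^ 2 ≤ y.2 := H hy
  have e1 : a * x.1 + b * y.1 = s := by simpa [par] using congrArg Prod.fst e
  have e2 : a * x.2 + b * y.2 = s ^ 2 := by simpa [par] using congrArg Prod.snd e
  have k : a * (x.2 - x.1 ^ 2) + b * (y.2 - y.1 ^ 2) + a * (x.1 - s) ^ 2 + b * (y.1 - s) ^ 2 = 0 := by
    linear_combination e2 - 2 * s * e1 + s ^ 2 * hab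
  have k1 := mul_nonneg ha.le (sub_nonneg.2 h1)
  have k2 := mul_nonneg hb.le (sub_nonneg.2 h2)
  have k3 := mul_nonneg ha.le (sq_nonneg (x.1 - s))
  have k4 := mul_nonneg hb.le (sq_nonneg (y.1 - s))
  have x1 : x.1 = s := by
    have : a * (x.1 - s) ^ 2 = 0 := by linarith
    have := (mul_eq_zero.1 this).resolve_left ha.ne'
    exact sub_eq_zero.1 (pow_eq_zero_iff two_ne_zero |>.1 this)
  have x2 : x.2 = x.1 ^ 2 := by
    have : a * (x.2 - x.1 ^ 2) = 0 := by linarith
    exact sub_eq_zero.1 ((mul_eq_zero.1 this).resolve_left ha.ne')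
  exact Prod.ext x1 (by rw [x2, x1]; rfl)

theorem det3 (a b c : ℝ) : det (par a) (par b) (par c) = (b - a) * (c - a) * (c - b) := by
  simp only [det, par]; ring
theorem det2 (a b : ℝ) : det (par a) (par b) (0, 1) = (b - a) * (1 + a * b) := by
  simp only [det, par]; ring

theorem cnt_eq (A : Finset (Fin m)) (f : P → Prop) [DecidablePred f] (h : ¬ f (0, 1)) :
    #{s ∈ S r A | f s} = #{i : Fin r | f (par (i + 1))} + #{j : Fin m | f (par (-(lam A j)⁻¹))} := by
  unfold S
  rw [filter_image, card_image_of_injective _ (pt_inj A), card_filter, Fintype.sum_option,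
    Fintype.sum_sum_type, card_filter, card_filter]
  simp only [pt, tt, h, if_false, zero_add]
  rfl

theorem sgn (A : Finset (Fin m)) (j : Fin m) (c : ℝ) :
    (0 < det (par (lam A j)) (par (-(lam A j)⁻¹)) (par c) ↔ -(lam A j)⁻¹ < c ∧ c < lam A j) ∧
    (lam A j < c → det (par (lam A j)) (par (-(lam A j)⁻¹)) (par c) < 0) := by
  rw [det3]
  have h1 := lam_pos A j
  have h2 := inv_pos.2 h1
  generalize (lam A j)⁻¹ = b at *
  generalize lam A j = a at *
  have : (-b - a) * (c - a) * (c - -b) = (a + b) * ((a - c) * (c + b)) := by ring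
  rw [this, mul_pos_iff_of_pos_left (by linarith)]
  refine ⟨⟨fun h => ?_, fun h => mul_pos (by linarith) (by linarith)⟩, fun h =>
    mul_neg_of_pos_of_neg (by linarith) (mul_neg_of_neg_of_pos (by linarith) (by linarith))⟩
  constructor <;> by_contra x <;> nlinarith

theorem z0 (A : Finset (Fin m)) (j : Fin m) :
    det (par (lam A j)) (par (-(lam A j)⁻¹)) (0, 1) = 0 := by
  rw [det2, mul_neg, mul_inv_cancel₀ (lam_pos A j).ne']; simp

theorem cnt_pos (hr : 4 * m ≤ r) (A : Finset (Fin m)) (j : Fin m) (hj : j ∈ A) :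
    cnt (S r A) (par (lam A j)) (par (-(lam A j)⁻¹)) = m + j := by
  classical
  have hl : lam A j = 2 * j + 2 := by simp [lam, hj]
  unfold cnt
  rw [cnt_eq A _ (by rw [z0]; simp)]
  simp only [(sgn A j _).1]
  have e1 : ({i : Fin r | -(lam A j)⁻¹ < (i : ℝ) + 1 ∧ (i : ℝ) + 1 < lam A j} : Finset _) =
      ({i : Fin r | i.1 < 2 * j + 1} : Finset _) := by
    refine filter_congr fun i _ => ?_
    have := inv_pos.2 (lam_pos A j)
    have : (0 : ℝ) ≤ i := by positivity
    rw [and_iff_right (by linarith), hl]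
    norm_cast; omega
  have e2 : ({i : Fin m | -(lam A j)⁻¹ < -(lam A i)⁻¹ ∧ -(lam A i)⁻¹ < lam A j} : Finset _) =
      Ioi j := by
    ext i
    have := inv_pos.2 (lam_pos A i)
    have := lam_pos A j
    rw [mem_filter, mem_Ioi, and_iff_right (mem_univ _), and_iff_left (by linarith),
      neg_lt_neg_iff, inv_lt_inv₀ (lam_pos A i) this]
    refine ⟨fun h => ?_, lam_lt A⟩
    by_contra n
    rcases (not_lt.1 n).eq_or_lt with c | c
    · rw [c] at h; linarith
    · linarith [lam_lt A c]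
  rw [e1, e2, Fin.card_filter_val_lt, Fin.card_Ioi]
  have := j.2
  omega

open Classical in
theorem cnt_neg (hr : 4 * m ≤ r) (A : Finset (Fin m)) (j : Fin m) :
    2 * m ≤ #{s ∈ S r A | det (par (lam A j)) (par (-(lam A j)⁻¹)) s < 0} := by
  rw [cnt_eq A _ (by rw [z0]; simp)]
  refine le_trans ?_ (Nat.le_add_right _ _)
  have : ({i : Fin r | i.1 < 2 * m} : Finset _)ᶜ ⊆ ({i : Fin r |
      det (par (lam A j)) (par (-(lam A j)⁻¹)) (par (i + 1)) < 0} : Finset _) := by
    intro i hi
    simp only [mem_compl, mem_filter, mem_univ, true_and, not_lt] at hi ⊢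
    refine (sgn A j _).2 ?_
    have := (lam_b A j).2
    have : (j : ℝ) + 1 ≤ m := by exact_mod_cast j.2
    have : 2 * (m : ℝ) ≤ i := by exact_mod_cast hi
    linarith
  have h := card_le_card this
  rw [card_compl, Fin.card_filter_val_lt, Fintype.card_fin] at h
  omega

theorem anti (A : Finset (Fin m)) (x y : Fin r ⊕ Fin m) (h : 1 + tt A x * tt A y = 0) :
    ∃ j ∈ A, (tt A x = lam A j ∧ tt A y = -(lam A j)⁻¹) ∨
      (tt A y = lam A j ∧ tt A x = -(lam A j)⁻¹) := by
  have K : ∀ (i : Fin r) (j : Fin m), 1 + ((i : ℝ) + 1) * -(lam A j)⁻¹ = 0 →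
      j ∈ A ∧ (i : ℝ) + 1 = lam A j := by
    intro i j h
    have := (lam_pos A j).ne'
    have e : (i : ℝ) + 1 = lam A j := by field_simp at h; linarith
    refine ⟨?_, e⟩
    by_contra n
    simp only [lam, n, if_false] at e
    have : (2 * i : ℝ) = 4 * j + 3 := by linarith
    norm_cast at this; omega
  rcases x with i | i <;> rcases y with j | j <;> simp only [tt] at h ⊢
  · exfalso; have : (0 : ℝ) < 1 + ((i : ℝ) + 1) * (j + 1) := by positivity
    linarith
  · exact ⟨j, (K i j h).1, Or.inl ⟨(K i j h).2, rfl⟩⟩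
  · rw [mul_comm] at h; exact ⟨i, (K j i h).1, Or.inr ⟨(K j i h).2, rfl⟩⟩
  · exfalso
    have := mul_pos (inv_pos.2 (lam_pos A i)) (inv_pos.2 (lam_pos A j))
    nlinarith

theorem mem_inv (hr : 4 * m ≤ r) (A : Finset (Fin m)) (j : Fin m) :
    m + j ∈ inv (S r A) ↔ j ∈ A := by
  classical
  have ne : ∀ j, par (lam A j) ≠ par (-(lam A j)⁻¹) := fun j e => by
    have : lam A j = -(lam A j)⁻¹ := congrArg Prod.fst e
    have := inv_pos.2 (lam_pos A j)
    have := lam_pos A j
    linarith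
  have mS : ∀ o, pt r A o ∈ S r A := fun o => mem_image.2 ⟨o, mem_univ _, rfl⟩
  constructor
  · rintro ⟨p, hp, q, hq, w, hw, a, b, d, e, hN⟩
    have : ∃ i ∈ A, det (par (lam A i)) (par (-(lam A i)⁻¹)) p = 0 ∧
        det (par (lam A i)) (par (-(lam A i)⁻¹)) q = 0 := by
      obtain ⟨p, -, rfl⟩ := mem_image.1 hp
      obtain ⟨q, -, rfl⟩ := mem_image.1 hq
      obtain ⟨w, -, rfl⟩ := mem_image.1 hw
      have T : ∀ x y : Fin r ⊕ Fin m, par (tt A x) ≠ par (tt A y) → det (par (tt A x)) (par (tt A y)) (0, 1) = 0 →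
          ∃ i ∈ A, det (par (lam A i)) (par (-(lam A i)⁻¹)) (par (tt A x)) = 0 ∧
            det (par (lam A i)) (par (-(lam A i)⁻¹)) (par (tt A y)) = 0 := by
        intro x y n e
        rw [det2, mul_eq_zero] at e
        rcases e with e | e
        · exact absurd (by rw [sub_eq_zero.1 e]) n
        obtain ⟨i, hi, h⟩ := anti A x y e
        refine ⟨i, hi, ?_⟩
        rcases h with h | h <;> rw [h.1, h.2] <;> simp [det3]
      rcases p with _ | p <;> rcases q with _ | q <;> rcases w with _ | w <;>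
        simp only [pt] at a b d e ⊢
      · exact absurd rfl a
      · exact absurd rfl a
      · exact absurd rfl d
      · obtain ⟨i, hi, h⟩ := T q w b (by unfold det at e ⊢; linarith)
        exact ⟨i, hi, z0 A i, h.1⟩
      · exact absurd rfl b
      · obtain ⟨i, hi, h⟩ := T p w d (by unfold det at e ⊢; linarith)
        exact ⟨i, hi, h.1, z0 A i⟩
      · exact T p q a e
      · rw [det3, mul_eq_zero, mul_eq_zero] at e
        rcases e with (e | e) | e
        · exact absurd (by rw [sub_eq_zero.1 e]) a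
        · exact absurd (by rw [sub_eq_zero.1 e]) d
        · exact absurd (by rw [sub_eq_zero.1 e]) b
    obtain ⟨i, hi, h1, h2⟩ := this
    rcases line (ne i) a h1 h2 with h | h
    · have := cnt_pos hr A i hi
      unfold cnt at this hN
      simp only [h] at hN
      have : j = i := Fin.ext (by omega)
      rwa [this]
    · have := cnt_neg hr A i
      unfold cnt at hN
      simp only [h] at hN
      have := j.2
      omega
  · intro hj
    have hl : lam A j = 2 * j + 2 := by simp [lam, hj]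
    have := j.2
    have e : par (lam A j) = pt r A (some (.inl ⟨2 * j + 1, by omega⟩)) := by
      simp only [pt, tt, hl]; push_cast; ring_nf
    refine ⟨_, e ▸ mS _, _, mS (some (.inr j)), _, mS none, ne j, ?_, ?_, z0 A j,
      (cnt_pos hr A j hj).symm⟩
    · exact fun h => by simpa using pt_inj A h
    · rw [e]; exact fun h => by simpa using pt_inj A h

theorem lower (k n : ℕ) (hk : 2 ≤ k) (hn : 0 < n) : 2 ^ ((n - 1) / 5) ≤ c k n := by
  obtain ⟨m, hm⟩ : ∃ m, m = (n - 1) / 5 := ⟨_, rfl⟩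
  have := (upper (k := k) hn).1
  let F : Finset (Fin m) → Quotient (setoid k n) := fun A => Quotient.mk _
    ⟨S (n - 1 - m) A, by rw [card_S]; omega, lt_of_le_of_lt (dtc_S A) (by omega)⟩
  have hF : Function.Injective F := fun A B e => by
    have h := Quotient.exact e
    have a := inv_sub h
    have b := inv_sub ((setoid k n).symm h)
    ext j
    rw [← mem_inv (r := n - 1 - m) (by omega), ← mem_inv (r := n - 1 - m) (by omega)]
    exact ⟨fun x => a x, fun x => b x⟩
  have := Nat.card_le_card_of_injective F hF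
  simpa [hm, c] using this

theorem result (k : ℕ) (hk : 2 ≤ k) :
    (fun n : ℕ => Real.log (c k n)) =Θ[atTop] fun n : ℕ => (n : ℝ) := by
  have l2 := Real.log_two_gt_d9
  have l2' := Real.log_two_lt_d9
  constructor
  · refine IsBigO.of_bound (k * (43 + k)) ?_
    filter_upwards [eventually_gt_atTop 0] with n hn
    have h1 := (upper (k := k) hn).2
    have h2 := lower k n hk hn
    have h3 : 0 < c k n := lt_of_lt_of_le (by positivity) h2
    rw [Real.norm_of_nonneg (Real.log_natCast_nonneg _), Real.norm_natCast]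
    have : (c k n : ℝ) ≤ 2 ^ (k * (43 + k) * n) := by exact_mod_cast h1
    have := Real.log_le_log (by exact_mod_cast h3) this
    rw [Real.log_pow] at this
    push_cast at this
    have : (0 : ℝ) ≤ k * (43 + k) * n := by positivity
    nlinarith
  · refine IsBigO.of_bound 20 ?_
    filter_upwards [eventually_ge_atTop 10] with n hn
    have h2 := lower k n hk (by omega)
    rw [Real.norm_of_nonneg (Real.log_natCast_nonneg _), Real.norm_natCast]
    have : (2 : ℝ) ^ ((n - 1) / 5) ≤ c k n := by exact_mod_cast h2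
    have := Real.log_le_log (by positivity) this
    rw [Real.log_pow] at this
    have h4 : (n : ℝ) ≤ 10 * ((n - 1) / 5 : ℕ) := by exact_mod_cast (by omega : n ≤ 10 * ((n - 1) / 5))
    have : (0 : ℝ) ≤ ((n - 1) / 5 : ℕ) := by positivity
    nlinarith

end Pool.Agent.Results.MP_6a769b_co.Linear
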